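import Pool.Agent.H62.OC.Star

/-!
# OC board, module CONF0: the initial configuration around a face
-/

set_option autoImplicit false
set_option linter.unusedSectionVars false
open scoped Classical
open Finset

namespace Pool.Agent.H62.OC

open Pool.Agent.H69.OC Pool.Agent.H69.OC.DG

/-- the walk along the face `g d2` through the pocket -/
structure Wk {V D : Type} [Fintype V] [Fintype D] (G : DG V D) (X : Finset V) (g : D → ℕ)
    (d1 d2 : D) (n : ℕ) (o h : ℕ → D) : Prop where
  o0 : o 0 = G.inv d1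
  on : o (n + 1) = d2
  lab : ∀ i ≤ n + 1, g (o i) = g d2
  next : ∀ i ≤ n, G.tgt (o i) = G.src (o (i + 1))
  inX : ∀ i ≤ n, G.tgt (o i) ∈ X
  inj : ∀ i ≤ n, ∀ j ≤ n, G.tgt (o i) = G.tgt (o j) → i = j
  all : ∀ d, G.src d ∈ X → g d = g d2 → ∃ i ≤ n, d = o (i + 1)
  hs : ∀ i ≤ n, G.src (h i) = G.tgt (o i)
  star : ∀ i ≤ n, ∀ d, G.src d = G.tgt (o i) → d = G.inv (o i) ∨ d = o (i + 1) ∨ d = h i
  h1 : ∀ i ≤ n, g (G.inv (h i)) = g (G.inv (o i))
  h2 : ∀ i ≤ n, g (h i) = g (G.inv (o (i + 1)))

theorem wk_exists (hD1 : T_D1) (hW : T_WALK) {V D : Type} [Fintype V] [Fintype D] {G : DG V D}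
    (hG : G.Cub) (h3 : G.C3) (h4 : G.C4) {X : Finset V} {g : D → ℕ} (hP : G.Pocket X g)
    {d1 d2 d3 d4 : D} (hp : G.Ports X g d1 d2 d3 d4) : ∃ n o h, Wk G X g d1 d2 n o h := by
  have hne : ∀ d, G.Tc X d → g d ≠ g (G.inv d) := hD1 V D G hG h3 h4 X g hP
  have hc1 := (hp.cut d1).2 (Or.inl rfl)
  have hc2 := (hp.cut d2).2 (Or.inr (Or.inl rfl))
  rw [mem_cut] at hc1 hc2
  obtain ⟨n, o, o0, on, hlab, hnext, hout, hinj, hall⟩ := hW V D G univ g X (cl_univ)
    (fun v hv => hP.bal v hv) (fun v _ => (hG v).le) (fun d _ hd => hne d hd)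
    (G.inv d1) (mem_univ _) (by rw [src_inv]; exact hc1.2.2) (by rw [tgt_inv]; exact hc1.2.1) d2
    (by
      intro d _ h5 h6 h7
      rw [hp.h12] at h7
      have h8 := (hp.cut d).1 (mem_cut.2 ⟨mem_univ _, h5, h6⟩)
      rcases h8 with rfl | rfl | rfl | rfl
      · exact absurd h7 hp.n12
      · rfl
      · exact absurd h7.symm hp.n23
      · exact absurd h7.symm hp.n24)
    (by
      intro R _ hne hin hcl
      obtain ⟨d, hd⟩ := hne
      have h5 := hP.orb R ⟨d, hd⟩ (fun d hd => ⟨(hin d hd).1, (hin d hd).2.1⟩)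
        (fun d hd d' h6 h7 => hcl d hd d' (mem_univ _) h6 h7) d hd d2 (Or.inl hc2.2.1)
        (by rw [(hin d hd).2.2, hp.h12])
      exact hc2.2.2 (hin d2 h5).2.1)
  have hlab' : ∀ i ≤ n + 1, g (o i) = g d2 := fun i hi => ((hlab i hi).2).trans hp.h12
  have hthird : ∀ i, ∃ c, i ≤ n → (c ≠ G.inv (o i) ∧ c ≠ o (i + 1) ∧ G.src c = G.tgt (o i) ∧
      ∀ d, G.src d = G.tgt (o i) → d = G.inv (o i) ∨ d = o (i + 1) ∨ d = c) := by
    intro i
    by_cases hi : i ≤ n
    · have hab : G.inv (o i) ≠ o (i + 1) := by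
        intro h
        have h5 := hne (o i) (Or.inr (hnext i hi).2)
        rw [h, hlab' i (by omega), hlab' (i + 1) (by omega)] at h5
        exact h5 rfl
      obtain ⟨c, hc⟩ := third hG hab (rfl : G.src (G.inv (o i)) = G.tgt (o i)) (hnext i hi).1.symm
      exact ⟨c, fun _ => hc⟩
    · exact ⟨o 0, fun h => absurd h hi⟩
  choose h hh using hthird
  have hab : ∀ i ≤ n, G.inv (o i) ≠ o (i + 1) := by
    intro i hi h
    have h5 := hne (o i) (Or.inr (hnext i hi).2)
    rw [h, hlab' i (by omega), hlab' (i + 1) (by omega)] at h5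
    exact h5 rfl
  have hst : ∀ i ≤ n, g (G.inv (o (i + 1))) = g (h i) ∧ g (G.inv (h i)) = g (G.inv (o i)) := by
    intro i hi
    obtain ⟨e1, e2, e3, e4⟩ := hh i hi
    refine star' g (hP.bal _ (hnext i hi).2) (rfl : G.src (G.inv (o i)) = G.tgt (o i))
      (hnext i hi).1.symm e3 (hab i hi) e1.symm e2.symm e4 ?_ ?_
    · intro d hd
      exact hne d (Or.inl (hd ▸ (hnext i hi).2))
    · rw [G.inv_inv, hlab' i (by omega), hlab' (i + 1) (by omega)]
  refine ⟨n, o, h, o0, on, hlab', fun i hi => (hnext i hi).1, fun i hi => (hnext i hi).2, hinj,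
    ?_, fun i hi => (hh i hi).2.2.1, fun i hi => (hh i hi).2.2.2, fun i hi => (hst i hi).2,
    fun i hi => (hst i hi).1.symm⟩
  intro d h5 h6
  exact hall d (mem_univ _) h5 (h6.trans hp.h12.symm)

namespace Wk

variable {V D : Type} [Fintype V] [Fintype D] {G : DG V D} {X : Finset V} {g : D → ℕ}
  {d1 d2 : D} {n : ℕ} {o h : ℕ → D}

theorem srcX (w : Wk G X g d1 d2 n o h) {i : ℕ} (h1 : 1 ≤ i) (h2 : i ≤ n + 1) :
    G.src (o i) = G.tgt (o (i - 1)) := by
  have := w.next (i - 1) (by omega)
  rw [this]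
  congr 2
  omega

theorem tc (w : Wk G X g d1 d2 n o h) {i : ℕ} (hi : i ≤ n + 1) : G.Tc X (o i) := by
  rcases Nat.lt_or_ge i (n + 1) with h5 | h5
  · exact Or.inr (w.inX i (by omega))
  · left
    rw [w.srcX (by omega) hi]
    exact w.inX _ (by omega)

theorem mem_touch (w : Wk G X g d1 d2 n o h) {v : V} :
    v ∈ G.touch X g (g d2) ↔ ∃ i ≤ n, v = G.tgt (o i) := by
  rw [touch, mem_sel]
  constructor
  · rintro ⟨hv, d, rfl, h6⟩
    obtain ⟨i, hi, rfl⟩ := w.all d hv h6
    exact ⟨i, hi, (w.next i hi).symm⟩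
  · rintro ⟨i, hi, rfl⟩
    exact ⟨w.inX i hi, o (i + 1), (w.next i hi).symm, w.lab _ (by omega)⟩

/-- ends of the darts of the walk in `X` -/
theorem ends (w : Wk G X g d1 d2 n o h) (h0 : G.tgt d1 ∉ X) (h0' : G.tgt d2 ∉ X) {i : ℕ}
    (hi : i ≤ n + 1) {u : V} (hu : u ∈ X) (hi2 : G.src (o i) = u ∨ G.tgt (o i) = u) :
    (1 ≤ i ∧ u = G.tgt (o (i - 1))) ∨ (i ≤ n ∧ u = G.tgt (o i)) := by
  rcases hi2 with h5 | h5
  · rcases Nat.eq_zero_or_pos i with h6 | h6
    · subst h6
      rw [w.o0, src_inv] at h5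
      exact absurd (h5 ▸ hu) h0
    · left
      exact ⟨h6, by rw [← h5, w.srcX h6 hi]⟩
  · rcases Nat.lt_or_ge i (n + 1) with h6 | h6
    · exact Or.inr ⟨by omega, h5.symm⟩
    · have : i = n + 1 := by omega
      subst this
      rw [w.on] at h5
      exact absurd (h5 ▸ hu) h0'

end Wk

theorem t_CONF0 (hD1 : T_D1) (hD2 : T_D2) (hD3 : T_D3) (hW : T_WALK) : T_CONF0 := by
  intro V D _ _ G hG h3 h4 X g hP hM hX6 d1 d2 d3 d4 hp
  obtain ⟨n, o, h, w⟩ := wk_exists hD1 hW hG h3 h4 hP hp
  have hne : ∀ d, G.Tc X d → g d ≠ g (G.inv d) := hD1 V D G hG h3 h4 X g hP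
  have hD2' := hD2 V D G hG h3 h4 X g hP
  have hD3' := hD3 V D G hG h3 h4 X g hP
  have hcut := hp.cut
  have hin : ∀ d, (d = d1 ∨ d = d2 ∨ d = d3 ∨ d = d4) → G.src d ∈ X ∧ G.tgt d ∉ X := by
    intro d hd
    have := (hcut d).2 hd
    rw [mem_cut] at this
    exact this.2
  have hc1 := hin d1 (Or.inl rfl)
  have hc2 := hin d2 (Or.inr (Or.inl rfl))
  have hc3 := hin d3 (Or.inr (Or.inr (Or.inl rfl)))
  have hc4 := hin d4 (Or.inr (Or.inr (Or.inr rfl)))
  set p : ℕ → ℕ := fun i => g (G.inv (o i)) with hpdef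
  set T := G.touch X g (g d2) with hT
  have hTX : T ⊆ X := sel_sub _ _
  have p0 : p 0 = g d1 := by rw [hpdef]; simp only [w.o0, G.inv_inv]
  have pt : p (n + 1) = g d3 := by rw [hpdef]; simp only [w.on, hp.h23]
  have n2 : ∀ i ≤ n + 1, p i ≠ g d2 := by
    intro i hi h5
    exact hne (o i) (w.tc hi) ((w.lab i hi).trans h5.symm)
  have inj : ∀ i ≤ n + 1, ∀ j ≤ n + 1, p i = p j → i = j := by
    intro i hi j hj hij
    have h5 := hD2' (o i) (o j) (w.tc hi) (w.tc hj) ((w.lab i hi).trans (w.lab j hj).symm) hij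
    rcases Nat.lt_or_ge i (n + 1) with h6 | h6 <;> rcases Nat.lt_or_ge j (n + 1) with h7 | h7
    · exact w.inj i (by omega) j (by omega) (by rw [h5])
    · exfalso
      have h8 : j = n + 1 := by omega
      subst h8
      rw [w.on] at h5
      exact hc2.2 (h5 ▸ w.inX i (by omega))
    · exfalso
      have h8 : i = n + 1 := by omega
      subst h8
      rw [w.on] at h5
      exact hc2.2 (h5.symm ▸ w.inX j (by omega))
    · omega
  have n4 : ∀ i ≤ n + 1, p i ≠ g d4 := by
    intro i hi h5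
    rcases Nat.eq_zero_or_pos i with h6 | h6
    · subst h6
      exact hp.n14 (p0.symm.trans h5)
    rcases Nat.lt_or_ge i (n + 1) with h7 | h7
    swap
    · have h8 : i = n + 1 := by omega
      subst h8
      exact hp.n34 (pt.symm.trans h5)
    obtain ⟨v, hvX, v1, v2, v3⟩ := hD3' d1 (o i) d4 (Or.inl hc1.1) (w.tc hi) (Or.inl hc4.1)
      (hp.h12.trans (w.lab i hi).symm) h5 hp.h41
    obtain ⟨v', hvX', v1', v2', v3'⟩ := hD3' d2 d3 (G.inv (o i)) (Or.inl hc2.1) (Or.inl hc3.1)
      (tc_inv.2 (w.tc hi)) hp.h23 (hp.h34.trans h5.symm) (by rw [G.inv_inv]; exact w.lab i hi)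
    have s1 : G.src d1 = v := v1.resolve_right fun h8 => hc1.2 (h8 ▸ hvX)
    have s4 : G.src d4 = v := v3.resolve_right fun h8 => hc4.2 (h8 ▸ hvX)
    have s2 : G.src d2 = v' := v1'.resolve_right fun h8 => hc2.2 (h8 ▸ hvX')
    have s3 : G.src d3 = v' := v2'.resolve_right fun h8 => hc3.2 (h8 ▸ hvX')
    have hd14 : d1 ≠ d4 := fun h8 => hp.n14 (by rw [h8])
    have hd23 : d2 ≠ d3 := fun h8 => hp.n23 (by rw [h8])
    have hd12 : d1 ≠ d2 := fun h8 => hp.n12 (by rw [h8])
    have hd13 : d1 ≠ d3 := fun h8 => hp.n13 (by rw [h8])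
    have hd24 : d2 ≠ d4 := fun h8 => hp.n24 (by rw [h8])
    have hd34 : d3 ≠ d4 := fun h8 => hp.n34 (by rw [h8])
    obtain ⟨c, hc1', hc2', hc3', hc4'⟩ := third hG hd14 s1 s4
    obtain ⟨c', hc1'', hc2'', hc3'', hc4''⟩ := third hG hd23 s2 s3
    have hvv : v ≠ v' := by
      intro h8
      have h9 := hc4' d2 (s2.trans h8.symm)
      have h10 := hc4' d3 (s3.trans h8.symm)
      rcases h9 with h9 | h9 | h9
      · exact hd12 h9.symm
      · exact hd24 h9
      · rcases h10 with h10 | h10 | h10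
        · exact hd13 h10.symm
        · exact hd34 h10
        · exact hd23 (h9.trans h10.symm)
    -- the ends of `o i` are `v` and `v'`
    rw [tgt_inv, src_inv] at v3'
    have hoi : (G.src (o i) = v ∧ G.tgt (o i) = v') ∨ (G.tgt (o i) = v ∧ G.src (o i) = v') := by
      rcases v2 with h8 | h8 <;> rcases v3' with h9 | h9
      · exact Or.inl ⟨h8, h9⟩
      · exact absurd (h8.symm.trans h9) hvv
      · exact absurd (h8.symm.trans h9) hvv
      · exact Or.inr ⟨h8, h9⟩
    have hlo : ∀ d, (d = d1 ∨ d = d2 ∨ d = d3 ∨ d = d4) → o i ≠ d ∧ G.inv (o i) ≠ d := by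
      intro d hd
      have h8 := hin d hd
      constructor
      · rintro rfl
        rcases hoi with h9 | h9
        · exact h8.2 (h9.2 ▸ hvX')
        · exact h8.2 (h9.1 ▸ hvX)
      · rintro rfl
        rw [tgt_inv] at h8
        rcases hoi with h9 | h9
        · exact h8.2 (h9.1 ▸ hvX)
        · exact h8.2 (h9.2 ▸ hvX')
    -- darts at `v` and `v'`
    have hend : ∀ d, (G.src d = v ∨ G.src d = v') → G.tgt d ∉ X ∨ G.tgt d = v ∨ G.tgt d = v' := by
      have hgen : ∀ d, d = o i ∨ d = G.inv (o i) → G.tgt d ∉ X ∨ G.tgt d = v ∨ G.tgt d = v' := by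
        rintro d (rfl | rfl)
        · rcases hoi with h9 | h9
          · exact Or.inr (Or.inr h9.2)
          · exact Or.inr (Or.inl h9.1)
        · rw [tgt_inv]
          rcases hoi with h9 | h9
          · exact Or.inr (Or.inl h9.1)
          · exact Or.inr (Or.inr h9.2)
      -- the third darts
      have hcc : c = o i ∨ c = G.inv (o i) := by
        rcases hoi with h9 | h9
        · left
          rcases hc4' (o i) h9.1 with h10 | h10 | h10
          · exact absurd h10 (hlo d1 (Or.inl rfl)).1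
          · exact absurd h10 (hlo d4 (Or.inr (Or.inr (Or.inr rfl)))).1
          · exact h10.symm
        · right
          rcases hc4' (G.inv (o i)) h9.1 with h10 | h10 | h10
          · exact absurd h10 (hlo d1 (Or.inl rfl)).2
          · exact absurd h10 (hlo d4 (Or.inr (Or.inr (Or.inr rfl)))).2
          · exact h10.symm
      have hcc' : c' = o i ∨ c' = G.inv (o i) := by
        rcases hoi with h9 | h9
        · right
          rcases hc4'' (G.inv (o i)) h9.2 with h10 | h10 | h10
          · exact absurd h10 (hlo d2 (Or.inr (Or.inl rfl))).2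
          · exact absurd h10 (hlo d3 (Or.inr (Or.inr (Or.inl rfl)))).2
          · exact h10.symm
        · left
          rcases hc4'' (o i) h9.2 with h10 | h10 | h10
          · exact absurd h10 (hlo d2 (Or.inr (Or.inl rfl))).1
          · exact absurd h10 (hlo d3 (Or.inr (Or.inr (Or.inl rfl)))).1
          · exact h10.symm
      rintro d (h9 | h9)
      · rcases hc4' d h9 with h10 | h10 | h10
        · exact Or.inl (h10 ▸ hc1.2)
        · exact Or.inl (h10 ▸ hc4.2)
        · exact hgen d (h10 ▸ hcc)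
      · rcases hc4'' d h9 with h10 | h10 | h10
        · exact Or.inl (h10 ▸ hc2.2)
        · exact Or.inl (h10 ▸ hc3.2)
        · exact hgen d (h10 ▸ hcc')
    have hempty : G.cut univ (X \ {v, v'}) = ∅ := by
      rw [Finset.eq_empty_iff_forall_notMem]
      intro d hd
      rw [mem_cut, mem_sdiff, mem_sdiff, mem_insert, mem_singleton, mem_insert, mem_singleton,
        not_or] at hd
      obtain ⟨_, ⟨hd1, hd2, hd3⟩, hd4⟩ := hd
      by_cases hd5 : G.tgt d ∈ X
      · have hd6 : G.tgt d = v ∨ G.tgt d = v' := by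
          by_contra h9
          exact hd4 ⟨hd5, h9⟩
        have hd7 := hend (G.inv d) (by rw [src_inv]; exact hd6)
        rw [tgt_inv] at hd7
        rcases hd7 with h9 | h9 | h9
        · exact h9 hd1
        · exact hd2 h9
        · exact hd3 h9
      · have hd6 := (hcut d).1 (mem_cut.2 ⟨mem_univ _, hd1, hd5⟩)
        rcases hd6 with rfl | rfl | rfl | rfl
        · exact hd2 s1
        · exact hd3 s2
        · exact hd3 s3
        · exact hd2 s4
    have hcard : 4 ≤ (X \ {v, v'}).card := by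
      have h9 := card_le_card (sdiff_subset (s := X) (t := ({v, v'} : Finset V)))
      have h10 := le_card_sdiff ({v, v'} : Finset V) X
      have h11 : ({v, v'} : Finset V).card ≤ 2 := card_le_two
      omega
    have h9 := h3 (X \ {v, v'}) (card_pos.1 (by omega)) (by
      intro h10
      have h11 : v ∈ X \ {v, v'} := by rw [h10]; exact mem_univ _
      rw [mem_sdiff] at h11
      exact h11.2 (mem_insert_self _ _))
    rw [hempty, card_empty] at h9
    omega
  have hcutT : ∀ d, d ∈ G.cut univ T ↔ (d = d1 ∨ d = d2 ∨ ∃ i < n + 1, d = h i) := by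
    intro d
    constructor
    · intro hd
      rw [mem_cut] at hd
      obtain ⟨i, hi, h5⟩ := w.mem_touch.1 hd.2.1
      have h6 := hd.2.2
      rcases w.star i hi d h5 with h7 | h7 | h7
      · left
        rcases Nat.eq_zero_or_pos i with h8 | h8
        · subst h8
          rw [h7, w.o0, G.inv_inv]
        · exfalso
          apply h6
          rw [h7, tgt_inv, w.srcX h8 (by omega)]
          exact w.mem_touch.2 ⟨i - 1, by omega, rfl⟩
      · right; left
        rcases Nat.lt_or_ge i n with h8 | h8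
        · exfalso
          apply h6
          rw [h7]
          exact w.mem_touch.2 ⟨i + 1, by omega, rfl⟩
        · have : i = n := by omega
          subst this
          rw [h7, w.on]
      · right; right
        exact ⟨i, by omega, h7⟩
    · rintro (rfl | rfl | ⟨i, hi, rfl⟩)
      · rw [mem_cut]
        refine ⟨mem_univ _, w.mem_touch.2 ⟨0, by omega, ?_⟩, fun h5 => hc1.2 (hTX h5)⟩
        rw [w.o0, tgt_inv]
      · rw [mem_cut]
        refine ⟨mem_univ _, w.mem_touch.2 ⟨n, le_refl n, ?_⟩, fun h5 => hc2.2 (hTX h5)⟩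
        rw [w.next n (le_refl n), w.on]
      · have hi' : i ≤ n := by omega
        rw [mem_cut]
        refine ⟨mem_univ _, w.mem_touch.2 ⟨i, hi', w.hs i hi'⟩, fun h5 => ?_⟩
        obtain ⟨j, hj, h6⟩ := w.mem_touch.1 h5
        rcases w.star j hj (G.inv (h i)) h6 with h7 | h7 | h7
        · have h8 : h i = o j := inv_inj h7
          have h9 := w.h2 i hi'
          rw [h8, w.lab j (by omega)] at h9
          exact n2 (i + 1) (by omega) h9.symm
        · have h9 := w.h1 i hi'
          rw [h7, w.lab (j + 1) (by omega)] at h9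
          exact n2 i (by omega) h9.symm
        · have h8 := w.h1 i hi'
          have h9 := w.h2 i hi'
          have h10 := w.h2 j hj
          have h11 := w.h1 j hj
          rw [← h7] at h10 h11
          rw [G.inv_inv] at h11
          have h12 := inj i (by omega) (j + 1) (by omega) (h8.symm.trans h10)
          have h13 := inj (i + 1) (by omega) j (by omega) (h9.symm.trans h11)
          omega
  have hinX : ∀ i < n + 1, G.tgt (h i) ∈ X := by
    intro i hi
    have hi' : i ≤ n := by omega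
    by_contra h5
    have h6 : G.src (h i) ∈ X := by rw [w.hs i hi']; exact w.inX i hi'
    rcases (hcut (h i)).1 (mem_cut.2 ⟨mem_univ _, h6, h5⟩) with h7 | h7 | h7 | h7
    · have h8 := w.h2 i hi'
      rw [h7] at h8
      have := inj 0 (by omega) (i + 1) (by omega) (p0.trans h8)
      omega
    · have h8 := w.h2 i hi'
      rw [h7] at h8
      exact n2 (i + 1) (by omega) h8.symm
    · have h8 := w.h1 i hi'
      rw [h7, hp.h34] at h8
      exact n4 i (by omega) h8.symm
    · have h8 := w.h2 i hi'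
      rw [h7] at h8
      exact n4 (i + 1) (by omega) h8.symm
  refine ⟨n + 1, p, h, ⟨hTX, hcutT, hinX, ?_, p0, pt, inj, n2, n4, ?_⟩, ?_, ?_⟩
  · intro i hi
    exact ⟨w.h1 i (by omega), w.h2 i (by omega)⟩
  · intro d hd i hi j hj h5 h6
    have hij : i ≠ j := by
      rintro rfl
      exact hne d hd (h5.trans h6.symm)
    obtain ⟨u, hu, u1, _, u3⟩ := hD3' (o i) d (G.inv (o j)) (w.tc hi) hd (tc_inv.2 (w.tc hj))
      h5.symm h6 (by rw [G.inv_inv, w.lab j hj, w.lab i hi])
    rw [tgt_inv, src_inv] at u3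
    have e1 := w.ends hc1.2 hc2.2 hi hu u1
    have e2 := w.ends hc1.2 hc2.2 hj hu u3.symm
    rcases e1 with ⟨a1, a2⟩ | ⟨a1, a2⟩ <;> rcases e2 with ⟨b1, b2⟩ | ⟨b1, b2⟩
    · have := w.inj (i - 1) (by omega) (j - 1) (by omega) (a2.symm.trans b2)
      omega
    · have := w.inj (i - 1) (by omega) j (by omega) (a2.symm.trans b2)
      omega
    · have := w.inj i (by omega) (j - 1) (by omega) (a2.symm.trans b2)
      omega
    · have := w.inj i (by omega) j (by omega) (a2.symm.trans b2)
      omega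
  · -- `3 ≤ n + 1`
    by_contra hlt
    have hTcard : T.card ≤ n + 1 := by
      have h5 : T ⊆ (range (n + 1)).image fun i => G.tgt (o i) := by
        intro v hv
        obtain ⟨i, hi, rfl⟩ := w.mem_touch.1 hv
        exact mem_image.2 ⟨i, mem_range.2 (by omega), rfl⟩
      exact (card_le_card h5).trans (card_image_le.trans (by rw [card_range]))
    have hTne : T.Nonempty := ⟨G.tgt (o 0), w.mem_touch.2 ⟨0, by omega, rfl⟩⟩
    have hsub : G.cut univ (X \ T) ⊆ {d3, d4} ∪ (range (n + 1)).image fun i => G.inv (h i) := by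
      intro d hd
      rw [mem_cut, mem_sdiff, mem_sdiff] at hd
      obtain ⟨_, ⟨h5, h6⟩, h7⟩ := hd
      rw [mem_union, mem_insert, mem_singleton, mem_image]
      by_cases h8 : G.tgt d ∈ X
      · have h9 : G.tgt d ∈ T := by
          by_contra h9
          exact h7 ⟨h8, h9⟩
        right
        have h10 := (hcutT (G.inv d)).1 (mem_cut.2 ⟨mem_univ _, h9, by rw [tgt_inv]; exact h6⟩)
        rcases h10 with h10 | h10 | ⟨i, hi, h10⟩
        · exfalso
          apply hc1.2
          rw [← h10, tgt_inv]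
          exact h5
        · exfalso
          apply hc2.2
          rw [← h10, tgt_inv]
          exact h5
        · exact ⟨i, mem_range.2 hi, by rw [← h10, G.inv_inv]⟩
      · left
        rcases (hcut d).1 (mem_cut.2 ⟨mem_univ _, h5, h8⟩) with h9 | h9 | h9 | h9
        · exfalso
          apply h6
          have := (hcutT d).2 (Or.inl h9)
          rw [mem_cut] at this
          exact this.2.1
        · exfalso
          apply h6
          have := (hcutT d).2 (Or.inr (Or.inl h9))
          rw [mem_cut] at this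
          exact this.2.1
        · exact Or.inl h9
        · exact Or.inr h9
    have hcard : (G.cut univ (X \ T)).card ≤ 2 + (n + 1) := by
      refine (card_le_card hsub).trans ((card_union_le _ _).trans ?_)
      have h5 : ({d3, d4} : Finset D).card ≤ 2 := card_le_two
      have h6 : ((range (n + 1)).image fun i => G.inv (h i)).card ≤ n + 1 :=
        card_image_le.trans (by rw [card_range])
      omega
    have hXT : X.card - T.card ≤ (X \ T).card := le_card_sdiff T X
    have hc : 2 ≤ (X \ T)ᶜ.card := by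
      refine hP.co.trans (card_le_card (compl_subset_compl.2 sdiff_subset))
    have h5 := h4 (X \ T) (by omega) hc
    have h6 : (G.cut univ (X \ T)).card = 4 := by omega
    have h7 := hM (X \ T) sdiff_subset h6 (by omega)
    obtain ⟨v, hv⟩ := hTne
    have h8 : v ∈ X \ T := by rw [h7]; exact hTX hv
    exact (mem_sdiff.1 h8).2 hv
  · intro i hi
    refine ⟨o i, ⟨w.tc hi, ?_, ?_⟩, w.lab i hi, rfl⟩
    · intro h5
      rcases w.ends hc1.2 hc2.2 hi h5 (Or.inl rfl) with ⟨a1, a2⟩ | ⟨a1, a2⟩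
      · rw [a2]; exact w.mem_touch.2 ⟨i - 1, by omega, rfl⟩
      · rw [a2]; exact w.mem_touch.2 ⟨i, a1, rfl⟩
    · intro h5
      rcases w.ends hc1.2 hc2.2 hi h5 (Or.inr rfl) with ⟨a1, a2⟩ | ⟨a1, a2⟩
      · rw [a2]; exact w.mem_touch.2 ⟨i - 1, by omega, rfl⟩
      · rw [a2]; exact w.mem_touch.2 ⟨i, a1, rfl⟩

end Pool.Agent.H62.OC
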