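import Pool.Agent.H69.OC.Targets

/-!
# OC board, modules D1, D2, D3, D4: dual cycles of a pocket
-/

set_option autoImplicit false
set_option linter.unusedSectionVars false
open scoped Classical
open Finset

namespace Pool.Agent.H62.OC

open Pool.Agent.H69.OC Pool.Agent.H69.OC.DG

variable {V D : Type} [Fintype V] [Fintype D] {G : DG V D}

theorem card_sel_range (n : ℕ) (q : ℕ → Prop) :
    (sel (range n) q).card = ∑ i ∈ range n, if q i then 1 else 0 := by
  rw [Finset.sum_ite, Finset.sum_const_zero, add_zero, Finset.sum_const, smul_eq_mul, mul_one]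
  rfl

/-- dual cycles of a pole are cuts -/
theorem dual_cycle {X : Finset V} {g : D → ℕ} (h : G.Pole X g) (n : ℕ) (k : ℕ → D)
    (hX : ∀ i < n + 1, G.Tc X (k i))
    (hD : ∀ i < n + 1, ∀ j < n + 1, (k i = k j ∨ k i = G.inv (k j)) → i = j)
    (hc : ∀ i < n, g (G.inv (k i)) = g (k (i + 1))) (hc' : g (G.inv (k n)) = g (k 0)) :
    ∃ W : Finset V, W ⊆ X ∧
      (∀ d, (¬ (G.src d ∈ W ↔ G.tgt d ∈ W)) ↔ ∃ i < n + 1, d = k i ∨ d = G.inv (k i))
      ∧ (G.cut univ W).card = n + 1 := by
  obtain ⟨W, hW, h1, h2⟩ := h.family (I := range (n + 1)) (k := k) (by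
    intro i hi j hj hij
    exact hD i (mem_range.1 hi) j (mem_range.1 hj) hij) (by
    intro i hi
    exact hX i (mem_range.1 hi)) (by
    intro c
    have : (sel (range (n + 1)) fun i => g (G.inv (k i)) = c).card
        = (sel (range (n + 1)) fun i => g (k i) = c).card := by
      rw [card_sel_range, card_sel_range, Finset.sum_range_succ, Finset.sum_range_succ' _ n]
      congr 1
      · apply Finset.sum_congr rfl
        intro i hi
        rw [hc i (mem_range.1 hi)]
      · rw [hc']
    rw [this]
    exact ⟨_, rfl⟩)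
  refine ⟨W, hW, fun d => ?_, ?_⟩
  · rw [h1 d]
    constructor
    · rintro ⟨i, hi, h⟩
      exact ⟨i, mem_range.1 hi, h⟩
    · rintro ⟨i, hi, h⟩
      exact ⟨i, mem_range.2 hi, h⟩
  · rw [h2, card_range]

/-- subsets of a pocket have cuts with at least three edges -/
theorem three_le {X : Finset V} {g : D → ℕ} (h3 : G.C3) (hP : G.Pocket X g) {W : Finset V}
    (hW : W ⊆ X) (h : (G.cut univ W).card ≠ 0) : 3 ≤ (G.cut univ W).card := by
  apply h3
  · rw [Finset.nonempty_iff_ne_empty]
    rintro rfl
    rw [cut_empty_eq] at h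
    exact h rfl
  · rintro rfl
    have h1 := hP.co
    have h2 : X = univ := Finset.univ_subset_iff.1 hW
    rw [h2, compl_univ, card_empty] at h1
    omega

theorem t_D1 : T_D1 := by
  intro V D _ _ G _ h3 _ X g hP d hd he
  obtain ⟨W, hW, _, h2⟩ := dual_cycle hP.toPole 0 (fun _ => d) (fun _ _ => hd)
    (fun i hi j hj _ => by omega) (fun i hi => by omega) he.symm
  have := three_le h3 hP hW (by omega)
  omega

theorem t_D2 (hD1 : T_D1) : T_D2 := by
  intro V D _ _ G hG h3 h4 X g hP d d' hd hd' h1 h2
  by_contra hne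
  have hne2 : d ≠ G.inv d' := by
    intro h
    apply hD1 V D G hG h3 h4 X g hP d hd
    rw [h1, h, G.inv_inv]
  obtain ⟨W, hW, _, hc⟩ := dual_cycle hP.toPole 1 (fun i => if i = 0 then d else G.inv d')
    (by
      intro i _
      split_ifs
      · exact hd
      · exact tc_inv.2 hd')
    (by
      intro i hi j hj hij
      rcases Nat.eq_zero_or_pos i with h | h <;> rcases Nat.eq_zero_or_pos j with h' | h'
      · omega
      · exfalso
        simp only [if_pos h, if_neg h'.ne'] at hij
        rcases hij with hij | hij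
        · exact hne2 hij
        · rw [G.inv_inv] at hij
          exact hne hij
      · exfalso
        simp only [if_neg h.ne', if_pos h'] at hij
        rcases hij with hij | hij
        · exact hne2 hij.symm
        · exact hne (inv_inj hij).symm
      · omega)
    (by
      intro i hi
      have : i = 0 := by omega
      subst this
      simp only [if_true, zero_add, one_ne_zero, if_false]
      exact h2)
    (by
      simp only [one_ne_zero, if_false, if_true, G.inv_inv]
      exact h1.symm)
  have := three_le h3 hP hW (by omega)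
  omega

theorem t_D3 (hD1 : T_D1) : T_D3 := by
  intro V D _ _ G hG h3 h4 X g hP k1 k2 k3 ht1 ht2 ht3 e1 e2 e3
  have n1 := hD1 V D G hG h3 h4 X g hP k1 ht1
  have n2 := hD1 V D G hG h3 h4 X g hP k2 ht2
  have n3 := hD1 V D G hG h3 h4 X g hP k3 ht3
  have a12 : k1 ≠ k2 := by rintro rfl; exact n1 e1.symm
  have a23 : k2 ≠ k3 := by rintro rfl; exact n2 e2.symm
  have a13 : k1 ≠ k3 := by rintro rfl; exact n1 e3.symm
  have b12 : k1 ≠ G.inv k2 := by
    rintro rfl
    exact n3 (by rw [e3, e2])
  have b23 : k2 ≠ G.inv k3 := by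
    rintro rfl
    exact n1 (by rw [e1, e3])
  have b31 : k3 ≠ G.inv k1 := by
    rintro rfl
    exact n2 (by rw [e2, e1])
  have b21 : k2 ≠ G.inv k1 := by
    rintro rfl; exact b12 (G.inv_inv k1).symm
  have b32 : k3 ≠ G.inv k2 := by
    rintro rfl; exact b23 (G.inv_inv k2).symm
  have b13 : k1 ≠ G.inv k3 := by
    rintro rfl; exact b31 (G.inv_inv k3).symm
  obtain ⟨W, hW, hx, hc⟩ := dual_cycle hP.toPole 2
    (fun i => if i = 0 then k1 else if i = 1 then k2 else k3)
    (by
      intro i _
      split_ifs
      · exact ht1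
      · exact ht2
      · exact ht3)
    (by
      intro i hi j hj hij
      have hi' : i = 0 ∨ i = 1 ∨ i = 2 := by omega
      have hj' : j = 0 ∨ j = 1 ∨ j = 2 := by omega
      rcases hi' with rfl | rfl | rfl <;> rcases hj' with rfl | rfl | rfl <;>
        simp only [if_true, one_ne_zero, if_false, OfNat.ofNat_ne_zero,
          OfNat.ofNat_ne_one] at hij ⊢
      · exact absurd hij (by simp only [not_or]; exact ⟨a12, b12⟩)
      · exact absurd hij (by simp only [not_or]; exact ⟨a13, b13⟩)
      · exact absurd hij (by simp only [not_or]; exact ⟨a12.symm, b21⟩)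
      · exact absurd hij (by simp only [not_or]; exact ⟨a23, b23⟩)
      · exact absurd hij (by simp only [not_or]; exact ⟨a13.symm, b31⟩)
      · exact absurd hij (by simp only [not_or]; exact ⟨a23.symm, b32⟩))
    (by
      intro i hi
      have hi' : i = 0 ∨ i = 1 := by omega
      rcases hi' with rfl | rfl
      · simpa using e1
      · simpa using e2)
    (by simpa using e3)
  have hWc : 2 ≤ Wᶜ.card := hP.co.trans (card_le_card (compl_subset_compl.2 hW))
  have hW1 : W.card = 1 := by
    have h0 : W.card ≠ 0 := by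
      intro h
      rw [card_eq_zero] at h
      rw [h, cut_empty_eq, card_empty] at hc
      omega
    have h2 : ¬ 2 ≤ W.card := by
      intro h
      have := h4 W h hWc
      omega
    omega
  obtain ⟨v, rfl⟩ := card_eq_one.1 hW1
  refine ⟨v, hW (mem_singleton_self v), ?_, ?_, ?_⟩
  · have := (hx k1).2 ⟨0, by omega, Or.inl (by simp)⟩
    rw [mem_singleton, mem_singleton] at this
    tauto
  · have := (hx k2).2 ⟨1, by omega, Or.inl (by simp)⟩
    rw [mem_singleton, mem_singleton] at this
    tauto
  · have := (hx k3).2 ⟨2, by omega, Or.inl (by simp)⟩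
    rw [mem_singleton, mem_singleton] at this
    tauto

theorem t_D4 : T_D4 := by
  intro V D _ _ G hG h3 h4 X g hP hM k hT hD e0 e1 e2 e3
  obtain ⟨W, hW, hx, hc⟩ := dual_cycle hP.toPole 3 k hT hD
    (by
      intro i hi
      have hi' : i = 0 ∨ i = 1 ∨ i = 2 := by omega
      rcases hi' with rfl | rfl | rfl
      · exact e0
      · exact e1
      · exact e2) e3
  have hcut : ∀ i < 4, k i ∈ G.cut univ W ∨ G.inv (k i) ∈ G.cut univ W := by
    intro i hi
    have := (hx (k i)).2 ⟨i, hi, Or.inl rfl⟩
    rw [mem_cut, mem_cut, tgt_inv, src_inv]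
    simp only [mem_univ, true_and]
    tauto
  by_cases hbig : 4 ≤ W.card
  · left
    rw [← hM W hW hc hbig]
    exact hcut
  · right
    obtain ⟨l, hl⟩ := cut_parity hG W
    have hW2 : W.card = 2 := by omega
    obtain ⟨w, w', hne, rfl⟩ := card_eq_two.1 hW2
    refine ⟨w, hW (by simp), w', hW (by simp), hne, ?_, hcut⟩
    by_contra hno
    push Not at hno
    have hs : ∀ u : V, 3 ≤ (G.cut univ {u}).card := by
      intro u
      apply h3
      · exact singleton_nonempty u
      · intro h
        have h5 := hP.co
        have h6 : (univ : Finset V).card = 1 := by rw [← h, card_singleton]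
        have h7 := card_le_univ Xᶜ
        rw [Finset.card_univ] at h6
        omega
    have hsub : G.cut univ {w} ∪ G.cut univ {w'} ⊆ G.cut univ {w, w'} := by
      intro d hd
      simp only [mem_union, mem_cut, mem_univ, true_and, mem_singleton, mem_insert] at hd ⊢
      rcases hd with ⟨h5, h6⟩ | ⟨h5, h6⟩
      · refine ⟨Or.inl h5, ?_⟩
        rintro (h | h)
        · exact h6 h
        · exact hno d h5 h
      · refine ⟨Or.inr h5, ?_⟩
        rintro (h | h)
        · exact hno (G.inv d) h (by rw [tgt_inv]; exact h5)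
        · exact h6 h
    have hdis : Disjoint (G.cut univ {w}) (G.cut univ {w'}) := by
      rw [disjoint_left]
      intro d hd hd'
      simp only [mem_cut, mem_univ, true_and, mem_singleton] at hd hd'
      exact hne (hd.1.symm.trans hd'.1)
    have h5 := card_le_card hsub
    rw [card_union_of_disjoint hdis] at h5
    have h6 := hs w
    have h7 := hs w'
    omega

end Pool.Agent.H62.OC
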