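import Pool.Agent.H62.OC.Star

/-!
# OC board, module ODD: there is a configuration of odd length
-/

set_option autoImplicit false
set_option linter.unusedSectionVars false
open scoped Classical
open Finset

namespace Pool.Agent.H62.OC

open Pool.Agent.H69.OC Pool.Agent.H69.OC.DG

theorem conf_card {V D : Type} [Fintype V] [Fintype D] {G : DG V D} {X : Finset V} {g : D → ℕ}
    {d1 d2 d3 d4 : D} (hp : G.Ports X g d1 d2 d3 d4) {V1 : Finset V} {t : ℕ} {p : ℕ → ℕ}
    {h : ℕ → D} (hc : G.Conf X g d1 d2 d3 d4 V1 t p h) : (G.cut univ V1).card = t + 2 := by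
  have h1 : G.cut univ V1 = {d1, d2} ∪ (range t).image h := by
    ext d
    rw [hc.cut d, mem_union, mem_insert, mem_singleton, mem_image]
    constructor
    · rintro (h5 | h5 | ⟨i, hi, h5⟩)
      · exact Or.inl (Or.inl h5)
      · exact Or.inl (Or.inr h5)
      · exact Or.inr ⟨i, mem_range.2 hi, h5.symm⟩
    · rintro ((h5 | h5) | ⟨i, hi, h5⟩)
      · exact Or.inl h5
      · exact Or.inr (Or.inl h5)
      · exact Or.inr (Or.inr ⟨i, mem_range.1 hi, h5.symm⟩)
  have h2 : Disjoint ({d1, d2} : Finset D) ((range t).image h) := by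
    rw [disjoint_left]
    intro d hd hd'
    rw [mem_image] at hd'
    obtain ⟨i, hi, rfl⟩ := hd'
    rw [mem_range] at hi
    rw [mem_insert, mem_singleton] at hd
    have h5 := (hc.hp i hi).2
    rcases hd with hd | hd
    · rw [hd, ← hc.p0] at h5
      have := hc.inj 0 (by omega) (i + 1) (by omega) h5
      omega
    · rw [hd] at h5
      exact hc.n2 (i + 1) (by omega) h5.symm
  have h3 : d1 ≠ d2 := fun h5 => hp.n12 (by rw [h5])
  rw [h1, card_union_of_disjoint h2, card_pair h3, card_image_of_injOn, card_range]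
  · omega
  · intro i hi j hj hij
    rw [mem_coe, mem_range] at hi hj
    have h5 := (hc.hp i hi).1
    have h6 := (hc.hp j hj).1
    rw [hij] at h5
    exact hc.inj i (by omega) j (by omega) (h5.symm.trans h6)

theorem conf_parity {V D : Type} [Fintype V] [Fintype D] {G : DG V D} (hG : G.Cub) {X : Finset V}
    {g : D → ℕ} {d1 d2 d3 d4 : D} (hp : G.Ports X g d1 d2 d3 d4) {V1 : Finset V} {t : ℕ}
    {p : ℕ → ℕ} {h : ℕ → D} (hc : G.Conf X g d1 d2 d3 d4 V1 t p h) : t % 2 = V1.card % 2 := by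
  obtain ⟨k, hk⟩ := cut_parity hG V1
  rw [conf_card hp hc] at hk
  omega

theorem bd_mono {V D : Type} [Fintype V] [Fintype D] {G : DG V D} {X V1 V2 : Finset V} {k : D}
    (h : Bd G X V1 k) (h12 : V1 ⊆ V2) : Bd G X V2 k :=
  ⟨h.1, fun h1 => h12 (h.2.1 h1), fun h1 => h12 (h.2.2 h1)⟩

theorem t_ODD (hC : T_CONF0) (hPU : T_PUSH) (hD1 : T_D1) (hD2 : T_D2) : T_ODD := by
  intro V D _ _ G hG h3 h4 X g hP hM hX6 d1 d2 d3 d4 hp
  have hne : ∀ d, G.Tc X d → g d ≠ g (G.inv d) := hD1 V D G hG h3 h4 X g hP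
  have hD2' := hD2 V D G hG h3 h4 X g hP
  obtain ⟨t, p, h, hc, ht3, hb⟩ := hC V D G hG h3 h4 X g hP hM hX6 d1 d2 d3 d4 hp
  by_cases hodd : t % 2 = 1
  · exact ⟨_, t, p, h, hc, Nat.odd_iff.2 hodd, by omega⟩
  have ht4 : 4 ≤ t := by omega
  set T0 := G.touch X g (g d2) with hT0
  have par0 := conf_parity hG hp hc
  have hPU' := hPU V D G hG h3 h4 X g hP hM hX6 d1 d2 d3 d4 hp
  have hpush : ∀ i, 0 < i → i < t → ∃ t' p' h',
      G.Conf X g d1 d2 d3 d4 (T0 ∪ G.touch X g (p i)) t' p' h' ∧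
      (∀ l ≤ t, l ≠ i → ∃ l' ≤ t', p' l' = p l) ∧
      (∀ l' ≤ t', (∃ l ≤ t, l ≠ i ∧ p' l' = p l) ∨
        ∃ k, Bd G X (T0 ∪ G.touch X g (p i)) k ∧ g k = p i ∧ g (G.inv k) = p' l') := by
    intro i hi0 hit
    apply hPU' T0 t p h hc i hi0 hit
    · exact hb i hit.le
    · intro l hl _
      obtain ⟨k, k1, k2, k3⟩ := hb l hl
      obtain ⟨k', k1', k2', k3'⟩ := hb i hit.le
      exact ⟨k, k', k1, k1', k3, k3', k2.trans k2'.symm⟩
  set T1 := G.touch X g (p 1) with hT1
  set T2 := G.touch X g (p 2) with hT2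
  obtain ⟨t1, p1, hh1, hc1, ha1, hb1⟩ := hpush 1 (by omega) (by omega)
  obtain ⟨t2, p2, hh2, hc2, _, _⟩ := hpush 2 (by omega) (by omega)
  rw [← hT1] at hc1 hb1
  rw [← hT2] at hc2
  have hh1X : G.tgt (h 1) ∈ X := hc.inX 1 (by omega)
  have hh1 := (hc.cut (h 1)).2 (Or.inr (Or.inr ⟨1, by omega, rfl⟩))
  rw [mem_cut] at hh1
  have hl1 := hc.hp 1 (by omega)
  have hm1 : G.tgt (h 1) ∈ T1 := by
    rw [hT1, touch, mem_sel]
    exact ⟨hh1X, G.inv (h 1), rfl, hl1.1⟩
  -- the third configuration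
  obtain ⟨i', hi', hpi'⟩ := ha1 2 (by omega) (by omega)
  have hi0 : 0 < i' := by
    rcases Nat.eq_zero_or_pos i' with h5 | h5
    · exfalso
      subst h5
      rw [hc1.p0, ← hc.p0] at hpi'
      have := hc.inj 0 (by omega) 2 (by omega) hpi'
      omega
    · exact h5
  have hit : i' < t1 := by
    rcases Nat.lt_or_ge i' t1 with h5 | h5
    · exact h5
    · exfalso
      have h6 : i' = t1 := by omega
      subst h6
      rw [hc1.pt, ← hc.pt] at hpi'
      have := hc.inj t (by omega) 2 (by omega) hpi'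
      omega
  obtain ⟨t3, p3, hh3, hc3, _, _⟩ := hPU' (T0 ∪ T1) t1 p1 _ hc1 i' hi0 hit
    (by
      obtain ⟨k, k1, k2, k3⟩ := hb 2 (by omega)
      exact ⟨k, bd_mono k1 subset_union_left, k2, k3.trans hpi'.symm⟩)
    (by
      intro l' hl' _
      rcases hb1 l' hl' with ⟨l, hl, _, h5⟩ | ⟨k, k1, k2, k3⟩
      · obtain ⟨k, k1, k2, k3⟩ := hb l hl
        obtain ⟨k', k1', k2', k3'⟩ := hb 2 (by omega)
        exact ⟨k, k', bd_mono k1 subset_union_left, bd_mono k1' subset_union_left,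
          k3.trans h5.symm, k3'.trans hpi'.symm, k2.trans k2'.symm⟩
      · refine ⟨k, G.inv (h 1), k1, ⟨Or.inl hh1X, ?_, ?_⟩, k3, ?_, ?_⟩
        · intro _
          exact mem_union_right _ hm1
        · intro _
          rw [tgt_inv]
          exact mem_union_left _ hh1.2.1
        · rw [G.inv_inv, hl1.2, hpi']
        · rw [k2, hl1.1])
  rw [hpi', ← hT2] at hc3
  have par1 := conf_parity hG hp hc1
  have par2 := conf_parity hG hp hc2
  have par3 := conf_parity hG hp hc3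
  -- the intersection
  have hinter : (T1 ∩ T2) \ T0 = {G.tgt (h 1)} := by
    ext v
    rw [mem_sdiff, mem_inter, mem_singleton]
    constructor
    · rintro ⟨⟨h5, h6⟩, h7⟩
      rw [hT1, touch, mem_sel] at h5
      rw [hT2, touch, mem_sel] at h6
      obtain ⟨hvX, a, ha, ha'⟩ := h5
      obtain ⟨_, b, hb', hb''⟩ := h6
      have hab : a ≠ b := by
        rintro rfl
        have := hc.inj 1 (by omega) 2 (by omega) (ha'.symm.trans hb'')
        omega
      obtain ⟨c, hca, hcb, hcs, hall⟩ := third hG hab ha hb'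
      have h8 := star g (hP.bal v hvX) ha hb' hcs hab hca.symm hcb.symm hall
        (fun d hd => hne d (Or.inl (hd ▸ hvX)))
      rcases h8 with h8 | h8
      · have h9 := hD2' a (G.inv (h 1)) (Or.inl (ha ▸ hvX)) (Or.inl hh1X)
          (ha'.trans hl1.1.symm) (by rw [h8.1, hb'', G.inv_inv, hl1.2])
        rw [← ha, h9, src_inv]
      · exfalso
        have h9 := hD2' b (h 1) (Or.inl (hb' ▸ hvX)) (Or.inr hh1X)
          (hb''.trans hl1.2.symm) (by rw [h8.2.1, ha', hl1.1])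
        apply h7
        rw [← hb', h9]
        exact hh1.2.1
    · rintro rfl
      refine ⟨⟨hm1, ?_⟩, hh1.2.2⟩
      obtain ⟨d', _, h5, h6⟩ := bal_next (cl_univ (G := G)) (f := g) (hP.bal _ hh1X)
        (mem_univ (h 1))
      rw [hT2, touch, mem_sel]
      exact ⟨hh1X, d', h5, h6.trans hl1.2⟩
  have c1 : (T0 ∪ T1).card = T0.card + (T1 \ T0).card := by
    rw [← union_sdiff_self_eq_union, card_union_of_disjoint disjoint_sdiff]
  have c2 : (T0 ∪ T2).card = T0.card + (T2 \ T0).card := by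
    rw [← union_sdiff_self_eq_union, card_union_of_disjoint disjoint_sdiff]
  have c3 : (T0 ∪ T1 ∪ T2).card + 1 = T0.card + (T1 \ T0).card + (T2 \ T0).card := by
    have h5 : (T0 ∪ T1 ∪ T2).card = T0.card + ((T1 ∪ T2) \ T0).card := by
      rw [union_assoc, ← union_sdiff_self_eq_union, card_union_of_disjoint disjoint_sdiff]
    have h6 : (T1 ∪ T2) \ T0 = (T1 \ T0) ∪ (T2 \ T0) := by
      ext v
      simp only [mem_sdiff, mem_union]
      tauto
    have h7 : (T1 \ T0) ∩ (T2 \ T0) = (T1 ∩ T2) \ T0 := by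
      ext v
      simp only [mem_sdiff, mem_inter]
      tauto
    have h8 := card_union_add_card_inter (T1 \ T0) (T2 \ T0)
    rw [h7, hinter, card_singleton] at h8
    rw [h5, h6]
    omega
  have hT0ne : 2 ≤ T0.card := by
    have h5 : T0.Nonempty := ⟨_, hh1.2.1⟩
    have := card_pos.2 h5
    omega
  have hfin : ∀ (W : Finset V) (s : ℕ) (q : ℕ → ℕ) (e : ℕ → D), T0 ⊆ W →
      G.Conf X g d1 d2 d3 d4 W s q e → s % 2 = 1 →
      ∃ V1 t p h, G.Conf X g d1 d2 d3 d4 V1 t p h ∧ Odd t ∧ 2 ≤ t := by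
    intro W s q e hW hcW hs
    refine ⟨W, s, q, e, hcW, Nat.odd_iff.2 hs, ?_⟩
    by_contra hlt
    have h5 := conf_card hp hcW
    have h6 := h4 W (hT0ne.trans (card_le_card hW))
      (hP.co.trans (card_le_card (compl_subset_compl.2 hcW.sub)))
    omega
  by_cases o1 : t1 % 2 = 1
  · exact hfin _ _ _ _ subset_union_left hc1 o1
  by_cases o2 : t2 % 2 = 1
  · exact hfin _ _ _ _ subset_union_left hc2 o2
  have o3 : t3 % 2 = 1 := by omega
  exact hfin _ _ _ _ (subset_union_left.trans subset_union_left) hc3 o3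

end Pool.Agent.H62.OC
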