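import Pool.Agent.H69.OC.Targets

/-!
# OC board: the labels around a cubic vertex (fact F4)
-/

set_option autoImplicit false
set_option linter.unusedSectionVars false
open scoped Classical
open Finset

namespace Pool.Agent.H62.OC

open Pool.Agent.H69.OC Pool.Agent.H69.OC.DG

variable {V D : Type} [Fintype V] [Fintype D] {G : DG V D}

/-- two triples which agree as multisets, without fixed points -/
theorem shift {a b c a' b' c' : ℕ}
    (h : ∀ k, (if a = k then 1 else 0) + (if b = k then 1 else 0) + (if c = k then 1 else 0)
      = (if a' = k then 1 else 0) + (if b' = k then 1 else 0) + (if c' = k then 1 else 0))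
    (ha : a ≠ a') (hb : b ≠ b') (hc : c ≠ c') :
    (a' = b ∧ b' = c ∧ c' = a) ∨ (a' = c ∧ b' = a ∧ c' = b) := by
  have h1 : b' = a ∨ c' = a := by
    have := h a
    by_contra hno
    push Not at hno
    simp only [if_true, if_neg ha.symm, if_neg hno.1, if_neg hno.2] at this
    omega
  have h2 : a' = b ∨ c' = b := by
    have := h b
    by_contra hno
    push Not at hno
    simp only [if_true, if_neg hb.symm, if_neg hno.1, if_neg hno.2] at this
    omega
  have h3 : a' = c ∨ b' = c := by
    have := h c
    by_contra hno
    push Not at hno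
    simp only [if_true, if_neg hc.symm, if_neg hno.1, if_neg hno.2] at this
    omega
  rcases h1 with h1 | h1 <;> rcases h2 with h2 | h2 <;> rcases h3 with h3 | h3
  · exfalso
    have := h b
    have e : c = b := h3.symm.trans h2
    subst e
    subst h2
    simp only [if_true, if_neg hb.symm, if_neg hc.symm] at this
    omega
  · exfalso
    have := h a
    have e : c = a := h3.symm.trans h1
    subst e
    subst h1
    simp only [if_true, if_neg ha.symm, if_neg hc.symm] at this
    omega
  · exact Or.inr ⟨h3, h1, h2⟩
  · exfalso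
    have := h a
    have e : c = a := h3.symm.trans h1
    subst e
    subst h1
    simp only [if_true, if_neg ha.symm, if_neg hc.symm] at this
    omega
  · exfalso
    have := h b
    have e : c = b := h3.symm.trans h2
    subst e
    subst h2
    simp only [if_true, if_neg hb.symm, if_neg hc.symm] at this
    omega
  · exact Or.inl ⟨h2, h3, h1⟩
  · exfalso
    have := h a
    have e : b = a := h2.symm.trans h1
    subst e
    subst h1
    simp only [if_true, if_neg ha.symm, if_neg hb.symm] at this
    omega
  · exfalso
    have := h a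
    have e : b = a := h2.symm.trans h1
    subst e
    subst h1
    simp only [if_true, if_neg ha.symm, if_neg hb.symm] at this
    omega

/-- the third dart at a cubic vertex -/
theorem third (hG : G.Cub) {v : V} {a b : D} (hab : a ≠ b) (ha : G.src a = v) (hb : G.src b = v) :
    ∃ c, c ≠ a ∧ c ≠ b ∧ G.src c = v ∧ ∀ d, G.src d = v → d = a ∨ d = b ∨ d = c := by
  have h3 := hG v
  have hsub : ({a, b} : Finset D) ⊆ sel univ fun d => G.src d = v := by
    intro d hd
    rw [mem_insert, mem_singleton] at hd
    rw [mem_sel]
    rcases hd with rfl | rfl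
    · exact ⟨mem_univ _, ha⟩
    · exact ⟨mem_univ _, hb⟩
  have hc : ((sel univ fun d => G.src d = v) \ {a, b}).card = 1 := by
    rw [card_sdiff_of_subset hsub, h3, card_pair hab]
  obtain ⟨c, hc⟩ := card_eq_one.1 hc
  have hmem : ∀ d, d ∈ (sel univ fun d => G.src d = v) \ {a, b} ↔ d = c := by
    intro d
    rw [hc, mem_singleton]
  have hcc := (hmem c).2 rfl
  rw [mem_sdiff, mem_sel, mem_insert, mem_singleton, not_or] at hcc
  refine ⟨c, hcc.2.1, hcc.2.2, hcc.1.2, fun d hd => ?_⟩
  by_cases h1 : d = a
  · exact Or.inl h1
  by_cases h2 : d = b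
  · exact Or.inr (Or.inl h2)
  · right; right
    rw [← hmem d, mem_sdiff, mem_sel, mem_insert, mem_singleton, not_or]
    exact ⟨⟨mem_univ _, hd⟩, h1, h2⟩

/-- counts over the darts at a vertex with darts `a, b, c` -/
theorem count_three {v : V} {a b c : D} (ha : G.src a = v) (hb : G.src b = v) (hc : G.src c = v)
    (hab : a ≠ b) (hac : a ≠ c) (hbc : b ≠ c)
    (hall : ∀ d, G.src d = v → d = a ∨ d = b ∨ d = c) (q : D → Prop) :
    (sel univ fun d => G.src d = v ∧ q d).card
      = (if q a then 1 else 0) + (if q b then 1 else 0) + (if q c then 1 else 0) := by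
  have h1 : (sel univ fun d => G.src d = v ∧ q d) = ({a, b, c} : Finset D).filter q := by
    ext d
    rw [mem_sel, mem_filter, mem_insert, mem_insert, mem_singleton]
    constructor
    · rintro ⟨_, h1, h2⟩
      exact ⟨hall d h1, h2⟩
    · rintro ⟨h1, h2⟩
      refine ⟨mem_univ _, ?_, h2⟩
      rcases h1 with rfl | rfl | rfl
      · exact ha
      · exact hb
      · exact hc
  rw [h1, Finset.card_filter, Finset.sum_insert (by simp [hab, hac]),
    Finset.sum_insert (by simp [hbc]), Finset.sum_singleton]
  ring

/-- F4: the in-labels are a cyclic shift of the out-labels -/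
theorem star (f : D → ℕ) {v : V} (hbal : G.BalAt univ f v) {a b c : D} (ha : G.src a = v)
    (hb : G.src b = v) (hc : G.src c = v) (hab : a ≠ b) (hac : a ≠ c) (hbc : b ≠ c)
    (hall : ∀ d, G.src d = v → d = a ∨ d = b ∨ d = c)
    (hne : ∀ d, G.src d = v → f d ≠ f (G.inv d)) :
    (f (G.inv a) = f b ∧ f (G.inv b) = f c ∧ f (G.inv c) = f a) ∨
      (f (G.inv a) = f c ∧ f (G.inv b) = f a ∧ f (G.inv c) = f b) := by
  apply shift _ (hne a ha) (hne b hb) (hne c hc)
  intro k
  have h := hbal k
  rw [count_three ha hb hc hab hac hbc hall, count_three ha hb hc hab hac hbc hall] at h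
  convert h

/-- F4 in the form used for walks -/
theorem star' (f : D → ℕ) {v : V} (hbal : G.BalAt univ f v) {a b c : D} (ha : G.src a = v)
    (hb : G.src b = v) (hc : G.src c = v) (hab : a ≠ b) (hac : a ≠ c) (hbc : b ≠ c)
    (hall : ∀ d, G.src d = v → d = a ∨ d = b ∨ d = c)
    (hne : ∀ d, G.src d = v → f d ≠ f (G.inv d)) (h : f (G.inv a) = f b) :
    f (G.inv b) = f c ∧ f (G.inv c) = f a := by
  rcases star f hbal ha hb hc hab hac hbc hall hne with h1 | h1
  · exact h1.2
  · exfalso
    exact hne c hc (by rw [h1.2.2, ← h, h1.1])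

end Pool.Agent.H62.OC
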